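import Pool.Agent.T6.H64.SM.Fin

set_option autoImplicit false
set_option linter.unusedSimpArgs false

/-!
# The `4 × 4` minors of a symmetric `n × n` matrix are not a tropical basis for `n ≥ 8`

The counterexample is a `0-1` vector. Let `a, b, c, d` be the four isotropic points of the projective
plane over `F_3` (with the standard quadratic form) and `p, q, r, s` the poles of the four lines
`bd`, `ac`, `cd`, `ab`. Over `F_3`, `p ⊥ q` and `r ⊥ s`. In characteristic different from `3` these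
two orthogonality relations would say that `(a, c; b, d)` and `(a, b; c, d)` are harmonic, which is
impossible. The weight is `1` on the orthogonal pairs and `0` on all the other pairs (and on all the
pairs which contain a further index).
-/

namespace Pool.Agent.Results.MP_0ed883_ag.NotTropicalBasis

open MvPolynomial Pool.Agent.T6.H64.SM

/-- The symmetric `n × n` matrix of indeterminates over `K`: the variables `x_ij` are indexed by the
unordered pairs of indices. -/
noncomputable def symX (K : Type) [CommRing K] (n : ℕ) :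
    Matrix (Fin n) (Fin n) (MvPolynomial (Sym2 (Fin n)) K) :=
  Matrix.of fun i j => X s(i, j)

/-- The minor with rows `I` and columns `J`. -/
noncomputable def minor (K : Type) [CommRing K] (n : ℕ) (I J : Fin 4 → Fin n) :
    MvPolynomial (Sym2 (Fin n)) K :=
  ((symX K n).submatrix I J).det

/-- `F_n`: all the `4 × 4` minors of the symmetric matrix of indeterminates over `ℂ`. -/
def F (n : ℕ) : Set (MvPolynomial (Sym2 (Fin n)) ℂ) :=
  {f | ∃ I J : Fin 4 ↪o Fin n, f = minor ℂ n I J}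

/-- The ideal `I_n` generated by the `4 × 4` minors. -/
noncomputable def ideal (n : ℕ) : Ideal (MvPolynomial (Sym2 (Fin n)) ℂ) := Ideal.span (F n)

/-- The number `w · u`. -/
noncomputable def wt {n : ℕ} (w : Sym2 (Fin n) → ℝ) (u : Sym2 (Fin n) →₀ ℕ) : ℝ :=
  ∑ e, w e * (u e : ℝ)

/-- The tropical hypersurface of `f`: all `w` such that the minimum of `w · u` over the exponents
`u` of `f` is attained at least twice (for `f = 0` it is the whole space). -/
def trop {n : ℕ} (f : MvPolynomial (Sym2 (Fin n)) ℂ) : Set (Sym2 (Fin n) → ℝ) :=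
  {w | f ≠ 0 → ∃ u ∈ f.support, ∃ v ∈ f.support, u ≠ v ∧ wt w u = wt w v ∧
    ∀ t ∈ f.support, wt w u ≤ wt w t}

/-! ### Support of the minors -/

theorem minor_map (K : Type) [CommRing K] (n : ℕ) (I J : Fin 4 → Fin n) :
    MvPolynomial.map (Int.castRingHom K) (minor ℤ n I J) = minor K n I J := by
  unfold minor
  rw [RingHom.map_det]
  congr 1
  ext1 a b
  simp [symX]

theorem supp_transfer {n : ℕ} {I J : Fin 4 → Fin n} {u : Sym2 (Fin n) →₀ ℕ}
    (h : u ∈ (minor (ZMod 3) n I J).support) : u ∈ (minor ℂ n I J).support := by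
  rw [mem_support_iff, ← minor_map, coeff_map] at h ⊢
  intro h0
  have h1 : coeff u (minor ℤ n I J) = 0 := by
    have h2 : ((coeff u (minor ℤ n I J) : ℤ) : ℂ) = 0 := h0
    exact_mod_cast h2
  exact h (by rw [h1]; simp)

/-- two exponents outside of the zero pattern -/
theorem core {σ : Type} (f : MvPolynomial σ (ZMod 3)) (g m : σ → ZMod 3)
    (hgm : ∀ e, g e = 0 → m e = 0) (hg : eval g f = 0) (hm : eval m f ≠ 0) :
    ∃ u ∈ f.support, ∃ v ∈ f.support, u ≠ v ∧ (∀ e, u e ≠ 0 → g e ≠ 0) ∧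
      (∀ e, v e ≠ 0 → g e ≠ 0) := by
  rw [eval_eq] at hg hm
  obtain ⟨u, hu, hu0⟩ := Finset.exists_ne_zero_of_sum_ne_zero hm
  have h1 : ∀ e, u e ≠ 0 → g e ≠ 0 := by
    intro e he hge
    apply hu0
    rw [Finset.prod_eq_zero (Finsupp.mem_support_iff.2 he) (by rw [hgm e hge, zero_pow he]),
      mul_zero]
  have h2 : coeff u f * ∏ i ∈ u.support, g i ^ u i ≠ 0 :=
    mul_ne_zero (mem_support_iff.1 hu)
      (Finset.prod_ne_zero_iff.2 fun e he => pow_ne_zero _ (h1 e (Finsupp.mem_support_iff.1 he)))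
  classical
  rw [← Finset.add_sum_erase _ _ hu] at hg
  have h3 : ∑ d ∈ f.support.erase u, coeff d f * ∏ i ∈ d.support, g i ^ d i ≠ 0 := by
    intro h
    rw [h, add_zero] at hg
    exact h2 hg
  obtain ⟨v, hv, hv0⟩ := Finset.exists_ne_zero_of_sum_ne_zero h3
  refine ⟨u, hu, v, Finset.mem_of_mem_erase hv, (Finset.ne_of_mem_erase hv).symm, h1, ?_⟩
  intro e he hge
  apply hv0
  rw [Finset.prod_eq_zero (Finsupp.mem_support_iff.2 he) (by rw [hge, zero_pow he]), mul_zero]

/-- evaluation of a minor -/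
theorem eval_minor {n : ℕ} (I J : Fin 4 → Fin n) (g : Sym2 (Fin n) → ZMod 3) :
    eval g (minor (ZMod 3) n I J) = (Matrix.of fun a b => g s(I a, J b)).det := by
  unfold minor
  rw [RingHom.map_det]
  congr 1
  ext1 a b
  simp [symX]

/-- the Gram function on pairs -/
def Gs : Sym2 (Fin 8) → ZMod 3 := Sym2.lift ⟨G, G_comm⟩

/-- the matrix number `k` on pairs -/
def Ns (k : Fin 6) : Sym2 (Fin 8) → ZMod 3 := Sym2.lift ⟨Nm k, Nm_comm k⟩

theorem Ns_zero (k : Fin 6) (e : Sym2 (Fin 8)) (h : Gs e = 0) : Ns k e = 0 := by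
  induction e using Sym2.ind with
  | _ i j => exact Nm_zero k i j h

/-- relabelling of the indices -/
theorem exists_relabel {n : ℕ} (hn : 8 ≤ n) (I J : Fin 4 → Fin n) (hI : Function.Injective I)
    (hJ : Function.Injective J) : ∃ π : Fin n → Fin 8, (∀ i : Fin 8, π (Fin.castLE hn i) = i) ∧
      Function.Injective (π ∘ I) ∧ Function.Injective (π ∘ J) := by
  set S : Finset (Fin n) := Finset.univ.image I ∪ Finset.univ.image J with hS
  have hScard : S.card ≤ 8 := by
    refine (Finset.card_union_le _ _).trans ?_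
    have h1 : (Finset.univ.image I).card ≤ 4 := Finset.card_image_le.trans (by simp)
    have h2 : (Finset.univ.image J).card ≤ 4 := Finset.card_image_le.trans (by simp)
    omega
  set O : Finset (Fin 8) := Finset.univ.filter fun i => Fin.castLE hn i ∈ S with hO
  set W : Finset (Fin n) := S.filter fun i : Fin n => ¬ (i : ℕ) < 8 with hW
  have hcard : W.card + O.card ≤ 8 := by
    have h1 : O.card = (S.filter fun i : Fin n => (i : ℕ) < 8).card := by
      rw [← Finset.card_map (Fin.castLEEmb hn)]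
      congr 1
      ext x
      simp only [hO, Finset.mem_map, Finset.mem_filter, Finset.mem_univ, true_and,
        Fin.castLEEmb_apply]
      constructor
      · rintro ⟨i, hi, rfl⟩
        exact ⟨hi, i.2⟩
      · rintro ⟨hx, hx8⟩
        exact ⟨⟨x, hx8⟩, hx, rfl⟩
    have h2 : (S.filter fun i : Fin n => (i : ℕ) < 8).card + W.card = S.card :=
      Finset.card_filter_add_card_filter_not (s := S) (fun i : Fin n => (i : ℕ) < 8)
    omega
  have hOc : Fintype.card {x : Fin n // x ∈ W} ≤ Fintype.card {y : Fin 8 // y ∉ O} := by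
    rw [Fintype.card_coe, Fintype.card_subtype_compl, Fintype.card_fin]
    have : Fintype.card {y : Fin 8 // y ∈ O} = O.card := Fintype.card_coe O
    omega
  obtain ⟨φ⟩ := Function.Embedding.nonempty_of_card_le hOc
  set π : Fin n → Fin 8 := fun i => if h : (i : ℕ) < 8 then ⟨i, h⟩ else
    if h2 : i ∈ W then (φ ⟨i, h2⟩).1 else 0 with hπ
  have hinj : ∀ i ∈ S, ∀ j ∈ S, π i = π j → i = j := by
    have aux : ∀ i ∈ S, ∀ j ∈ S, (i : ℕ) < 8 → ¬ (j : ℕ) < 8 → π i ≠ π j := by
      intro i hi j hj h1 h2 h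
      have hjW : j ∈ W := Finset.mem_filter.2 ⟨hj, h2⟩
      simp only [hπ, h1, h2, hjW, dif_pos, dif_neg, not_false_eq_true] at h
      have h3 := (φ ⟨j, hjW⟩).2
      rw [← h] at h3
      apply h3
      rw [hO, Finset.mem_filter]
      exact ⟨Finset.mem_univ _, hi⟩
    intro i hi j hj h
    by_cases h1 : (i : ℕ) < 8 <;> by_cases h2 : (j : ℕ) < 8
    · simp only [hπ, h1, h2, dif_pos] at h
      exact Fin.ext (by simpa using h)
    · exact absurd h (aux i hi j hj h1 h2)
    · exact absurd h.symm (aux j hj i hi h2 h1)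
    · have hiW : i ∈ W := Finset.mem_filter.2 ⟨hi, h1⟩
      have hjW : j ∈ W := Finset.mem_filter.2 ⟨hj, h2⟩
      simp only [hπ, h1, h2, hiW, hjW, dif_pos, dif_neg, not_false_eq_true] at h
      have h3 := φ.injective (Subtype.ext h)
      exact congrArg Subtype.val h3
  refine ⟨π, ?_, ?_, ?_⟩
  · intro i
    simp [hπ]
  · intro x y h
    refine hI (hinj _ ?_ _ ?_ h)
    · exact Finset.mem_union_left _ (Finset.mem_image_of_mem _ (Finset.mem_univ _))
    · exact Finset.mem_union_left _ (Finset.mem_image_of_mem _ (Finset.mem_univ _))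
  · intro x y h
    refine hJ (hinj _ ?_ _ ?_ h)
    · exact Finset.mem_union_right _ (Finset.mem_image_of_mem _ (Finset.mem_univ _))
    · exact Finset.mem_union_right _ (Finset.mem_image_of_mem _ (Finset.mem_univ _))

/-! ### The weight -/

/-- the pairs of weight `1` -/
def Z {n : ℕ} (hn : 8 ≤ n) : Set (Sym2 (Fin n)) :=
  {e | ∃ i j : Fin 8, zz i j = true ∧ e = s(Fin.castLE hn i, Fin.castLE hn j)}

open Classical in
/-- the weight -/
noncomputable def ww {n : ℕ} (hn : 8 ≤ n) : Sym2 (Fin n) → ℝ := fun e => if e ∈ Z hn then 1 else 0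

theorem ww_nonneg {n : ℕ} (hn : 8 ≤ n) (e : Sym2 (Fin n)) : 0 ≤ ww hn e := by
  unfold ww
  split_ifs <;> norm_num

theorem wt_nonneg {n : ℕ} (hn : 8 ≤ n) (u : Sym2 (Fin n) →₀ ℕ) : 0 ≤ wt (ww hn) u :=
  Finset.sum_nonneg fun e _ => mul_nonneg (ww_nonneg hn e) (Nat.cast_nonneg _)

theorem wt_eq_zero {n : ℕ} (hn : 8 ≤ n) (u : Sym2 (Fin n) →₀ ℕ) :
    wt (ww hn) u = 0 ↔ ∀ e ∈ Z hn, u e = 0 := by
  unfold wt
  rw [Finset.sum_eq_zero_iff_of_nonneg
    fun e _ => mul_nonneg (ww_nonneg hn e) (Nat.cast_nonneg _)]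
  constructor
  · intro h e he
    have := h e (Finset.mem_univ _)
    simpa [ww, he] using this
  · intro h e _
    by_cases he : e ∈ Z hn
    · rw [h e he]
      simp
    · simp [ww, he]

theorem mem_prevariety {n : ℕ} (hn : 8 ≤ n) (I J : Fin 4 → Fin n) (hI : Function.Injective I)
    (hJ : Function.Injective J) : ww hn ∈ trop (minor ℂ n I J) := by
  intro _
  obtain ⟨π, hπ, hπI, hπJ⟩ := exists_relabel hn I J hI hJ
  obtain ⟨k, hk⟩ := det_inj (π ∘ I) (π ∘ J) hπI hπJ
  obtain ⟨u, hu, v, hv, huv, hu0, hv0⟩ := core (minor (ZMod 3) n I J)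
    (fun e => Gs (e.map π)) (fun e => Ns k (e.map π)) (fun e he => Ns_zero k _ he)
    (by
      rw [eval_minor]
      exact gram_det (π ∘ I) (π ∘ J))
    (by
      rw [eval_minor]
      exact hk)
  have key : ∀ u : Sym2 (Fin n) →₀ ℕ, (∀ e, u e ≠ 0 → Gs (e.map π) ≠ 0) →
      wt (ww hn) u = 0 := by
    intro u hu0
    rw [wt_eq_zero]
    rintro e ⟨i, j, hij, rfl⟩
    by_contra hne
    apply hu0 _ hne
    rw [Sym2.map_mk]
    change G (π (Fin.castLE hn i)) (π (Fin.castLE hn j)) = 0
    rw [hπ, hπ]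
    exact (G_zero i j).2 hij
  refine ⟨u, supp_transfer hu, v, supp_transfer hv, huv, ?_, ?_⟩
  · rw [key u hu0, key v hv0]
  · intro t _
    rw [key u hu0]
    exact wt_nonneg hn t

/-! ### The weight is not in the tropical variety -/

/-- the ideal of the variables of weight `1` -/
noncomputable def JZ {n : ℕ} (hn : 8 ≤ n) : Ideal (MvPolynomial (Sym2 (Fin n)) ℂ) :=
  Ideal.span (X '' Z hn)

/-- the old variables -/
noncomputable def xx {n : ℕ} (hn : 8 ≤ n) (i j : Fin 8) : MvPolynomial (Sym2 (Fin n)) ℂ :=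
  X s(Fin.castLE hn i, Fin.castLE hn j)

theorem xx_comm {n : ℕ} (hn : 8 ≤ n) (i j : Fin 8) : xx hn i j = xx hn j i := by
  unfold xx
  rw [Sym2.eq_swap]

theorem minor_old {n : ℕ} (hn : 8 ≤ n) (I J : Fin 4 → Fin 8) :
    minor ℂ n (fun a => Fin.castLE hn (I a)) (fun a => Fin.castLE hn (J a)) =
      (Matrix.of fun a b => xx hn (I a) (J b)).det := rfl

theorem minor_mem {n : ℕ} (hn : 8 ≤ n) (I J : Fin 4 → Fin 8) (hI : StrictMono I)
    (hJ : StrictMono J) :
    minor ℂ n (fun a => Fin.castLE hn (I a)) (fun a => Fin.castLE hn (J a)) ∈ ideal n := by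
  refine Ideal.subset_span ⟨(OrderEmbedding.ofStrictMono I hI).trans (Fin.castLEOrderEmb hn),
    (OrderEmbedding.ofStrictMono J hJ).trans (Fin.castLEOrderEmb hn), rfl⟩

/-- the exponent of the monomial -/
noncomputable def mu {n : ℕ} (hn : 8 ≤ n) : Sym2 (Fin n) →₀ ℕ :=
  Finsupp.single s(Fin.castLE hn 4, Fin.castLE hn 4) 1 +
  Finsupp.single s(Fin.castLE hn 5, Fin.castLE hn 5) 1 +
  Finsupp.single s(Fin.castLE hn 6, Fin.castLE hn 6) 1 +
  Finsupp.single s(Fin.castLE hn 7, Fin.castLE hn 7) 1 +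
  Finsupp.single s(Fin.castLE hn 0, Fin.castLE hn 3) 2 +
  Finsupp.single s(Fin.castLE hn 1, Fin.castLE hn 2) 2

theorem monomial_mu {n : ℕ} (hn : 8 ≤ n) :
    monomial (mu hn) (-3 : ℂ) = -3 * (xx hn 4 4 * xx hn 5 5 * (xx hn 6 6 * xx hn 7 7) *
      (xx hn 0 3 * xx hn 1 2) ^ 2) := by
  have h : ∀ (s : Sym2 (Fin n)) (k : ℕ), monomial (Finsupp.single s k) (1 : ℂ) = X s ^ k :=
    fun s k => (X_pow_eq_monomial).symm
  have h3 : monomial (mu hn) (-3 : ℂ) = C (-3) * monomial (mu hn) (1 : ℂ) := by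
    rw [C_mul_monomial, mul_one]
  rw [h3]
  have h4 : (C (-3) : MvPolynomial (Sym2 (Fin n)) ℂ) = -3 := by
    rw [map_neg]
    rfl
  rw [h4]
  unfold mu xx
  have h5 : ∀ a b : Sym2 (Fin n) →₀ ℕ, monomial (a + b) (1 : ℂ) =
      monomial a (1 : ℂ) * monomial b (1 : ℂ) := by
    intro a b
    rw [monomial_mul, mul_one]
  rw [h5, h5, h5, h5, h5, h, h, h, h, h, h]
  ring

/-- a polynomial of the ideal whose part of weight `0` is a monomial -/
theorem exists_poly {n : ℕ} (hn : 8 ≤ n) :
    ∃ f ∈ ideal n, f - monomial (mu hn) (-3 : ℂ) ∈ JZ hn := by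
  set f1 := minor ℂ n (fun a => Fin.castLE hn ((![0, 2, 4, 5] : Fin 4 → Fin 8) a))
    (fun a => Fin.castLE hn ((![1, 3, 4, 5] : Fin 4 → Fin 8) a)) with hf1
  set f2 := minor ℂ n (fun a => Fin.castLE hn ((![0, 1, 6, 7] : Fin 4 → Fin 8) a))
    (fun a => Fin.castLE hn ((![2, 3, 6, 7] : Fin 4 → Fin 8) a)) with hf2
  set f3 := minor ℂ n (fun a => Fin.castLE hn ((![0, 1, 2, 3] : Fin 4 → Fin 8) a))
    (fun a => Fin.castLE hn ((![0, 1, 2, 3] : Fin 4 → Fin 8) a)) with hf3
  have m1 : f1 ∈ ideal n := minor_mem hn _ _ (by decide) (by decide)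
  have m2 : f2 ∈ ideal n := minor_mem hn _ _ (by decide) (by decide)
  have m3 : f3 ∈ ideal n := minor_mem hn _ _ (by decide) (by decide)
  set P := xx hn 4 4 * xx hn 5 5 with hP
  set Q := xx hn 6 6 * xx hn 7 7 with hQ
  set x := xx hn 0 1 * xx hn 2 3 with hx
  set y := xx hn 0 2 * xx hn 1 3 with hy
  set z := xx hn 0 3 * xx hn 1 2 with hz
  refine ⟨P * Q * f3 - Q * ((x - z) - 2 * (y - z) - 2 * z) * f1 - P * ((y - z) - 2 * z) * f2,
    ?_, ?_⟩
  · exact Ideal.sub_mem _ (Ideal.sub_mem _ (Ideal.mul_mem_left _ _ m3) (Ideal.mul_mem_left _ _ m1))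
      (Ideal.mul_mem_left _ _ m2)
  · rw [← Ideal.Quotient.eq_zero_iff_mem, monomial_mu]
    have hzero : ∀ i j : Fin 8, zz i j = true →
        Ideal.Quotient.mk (JZ hn) (xx hn i j) = 0 := by
      intro i j hij
      rw [Ideal.Quotient.eq_zero_iff_mem]
      exact Ideal.subset_span ⟨_, ⟨i, j, hij, rfl⟩, rfl⟩
    have hcomm : ∀ i j : Fin 8, Ideal.Quotient.mk (JZ hn) (xx hn i j) =
        Ideal.Quotient.mk (JZ hn) (xx hn j i) := by
      intro i j
      rw [xx_comm]
    rw [hf1, hf2, hf3, minor_old, minor_old, minor_old, det4, det4, det4]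
    simp only [Matrix.of_apply, Matrix.cons_val]
    simp only [hP, hQ, hx, hy, hz, map_sub, map_mul, map_add, map_pow, map_neg, map_ofNat]
    simp only [hzero 0 5 (by decide), hzero 0 7 (by decide), hzero 1 4 (by decide),
      hzero 1 7 (by decide), hzero 2 5 (by decide), hzero 2 6 (by decide), hzero 3 4 (by decide),
      hzero 3 6 (by decide), hzero 4 5 (by decide), hzero 6 7 (by decide), hzero 5 0 (by decide),
      hzero 7 0 (by decide), hzero 4 1 (by decide), hzero 7 1 (by decide), hzero 5 2 (by decide),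
      hzero 6 2 (by decide), hzero 4 3 (by decide), hzero 6 3 (by decide), hzero 5 4 (by decide),
      hzero 7 6 (by decide), hzero 0 0 (by decide), hzero 1 1 (by decide), hzero 2 2 (by decide),
      hzero 3 3 (by decide)]
    rw [hcomm 1 0, hcomm 2 0, hcomm 3 0, hcomm 2 1, hcomm 3 1, hcomm 3 2]
    ring

theorem not_mem_variety {n : ℕ} (hn : 8 ≤ n) : ∃ f ∈ ideal n, ww hn ∉ trop f := by
  obtain ⟨f, hf, hJ⟩ := exists_poly hn
  refine ⟨f, hf, ?_⟩
  unfold JZ at hJ
  rw [mem_ideal_span_X_image] at hJ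
  have hmu0 : ∀ e ∈ Z hn, mu hn e = 0 := by
    rintro e ⟨i, j, hij, rfl⟩
    have hinj : Function.Injective (Fin.castLE hn) := Fin.castLE_injective hn
    have key : ∀ k l : Fin 8, zz k l = false →
        s(Fin.castLE hn k, Fin.castLE hn l) ≠ s(Fin.castLE hn i, Fin.castLE hn j) := by
      intro k l hkl h
      rw [Sym2.eq_iff] at h
      have hs : ∀ i j, zz i j = zz j i := by decide
      rcases h with ⟨h1, h2⟩ | ⟨h1, h2⟩
      · rw [hinj h1, hinj h2, hij] at hkl
        exact absurd hkl (by decide)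
      · rw [hinj h1, hinj h2, hs, hij] at hkl
        exact absurd hkl (by decide)
    unfold mu
    simp only [Finsupp.add_apply]
    rw [Finsupp.single_eq_of_ne (key 4 4 (by decide)).symm,
      Finsupp.single_eq_of_ne (key 5 5 (by decide)).symm,
      Finsupp.single_eq_of_ne (key 6 6 (by decide)).symm,
      Finsupp.single_eq_of_ne (key 7 7 (by decide)).symm,
      Finsupp.single_eq_of_ne (key 0 3 (by decide)).symm,
      Finsupp.single_eq_of_ne (key 1 2 (by decide)).symm]
    rfl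
  have hcoeff : ∀ t : Sym2 (Fin n) →₀ ℕ, (∀ e ∈ Z hn, t e = 0) →
      coeff t f = coeff t (monomial (mu hn) (-3 : ℂ)) := by
    intro t ht
    by_contra hne
    have h1 : t ∈ (f - monomial (mu hn) (-3 : ℂ)).support := by
      rw [mem_support_iff, coeff_sub]
      exact sub_ne_zero.2 hne
    obtain ⟨e, he, hte⟩ := hJ t h1
    exact hte (ht e he)
  have hmu : mu hn ∈ f.support := by
    rw [mem_support_iff, hcoeff _ hmu0, coeff_monomial, if_pos rfl]
    norm_num
  have hf0 : f ≠ 0 := by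
    rintro rfl
    simp at hmu
  intro hw
  obtain ⟨u, hu, v, hv, huv, hwt, hmin⟩ := hw hf0
  have h0 : wt (ww hn) (mu hn) = 0 := (wt_eq_zero hn _).2 hmu0
  have hu0 : wt (ww hn) u = 0 :=
    le_antisymm ((hmin _ hmu).trans h0.le) (wt_nonneg hn u)
  have hv0 : wt (ww hn) v = 0 := by rw [← hwt, hu0]
  have huniq : ∀ t ∈ f.support, wt (ww hn) t = 0 → t = mu hn := by
    intro t ht ht0
    rw [mem_support_iff, hcoeff t ((wt_eq_zero hn t).1 ht0), coeff_monomial] at ht
    by_contra hne
    rw [if_neg (Ne.symm hne)] at ht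
    exact ht rfl
  exact huv ((huniq u hu hu0).trans (huniq v hv hv0).symm)

/-- For every `n ≥ 8` the `4 × 4` minors of the symmetric `n × n` matrix of indeterminates are not a
tropical basis: the intersection of their tropical hypersurfaces is not the tropical variety of the
ideal generated by them. -/
theorem result (n : ℕ) (hn : 8 ≤ n) : (⋂ f ∈ F n, trop f) ≠ ⋂ f ∈ ideal n, trop f := by
  intro h
  obtain ⟨f, hf, hw⟩ := not_mem_variety hn
  have h1 : ww hn ∈ ⋂ f ∈ F n, trop f := by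
    simp only [Set.mem_iInter]
    rintro g ⟨I, J, rfl⟩
    exact mem_prevariety hn I J I.injective J.injective
  rw [h] at h1
  simp only [Set.mem_iInter] at h1
  exact hw (h1 f hf)

end Pool.Agent.Results.MP_0ed883_ag.NotTropicalBasis
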